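import Pool.Agent.Y586.G2.Main

/-!
# A regular graded Clifford algebra of global dimension four with exactly two point modules

The algebra: generators `a, b, c, d` of degree one with `a^2 = b^2`, `c^2 = d^2`, `ac + ca = 0`
and three further quadratic relations with coefficients in `ℤ[i]`. It is a graded Clifford
algebra (all `mu_ij = 1`). The linear system of quadrics spanned by its four matrices is base
point free, contains exactly one quadric of rank at most two, and its symmetroid is the quartic
surface with a singularity of type `A_19`.
-/

universe u

namespace Pool.Agent.Results.MP_a6a2ff_al.TwoPoints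

open Pool.Agent.W506.PM

/-- Over every algebraically closed field `k` with `2 ≠ 0` and `5 ≠ 0` there are symmetric
matrices `M_1, ..., M_4` such that the algebra `A(mu; M_1, ..., M_4)` with all `mu_ij = 1` is a
graded skew Clifford algebra, is a quadratic algebra, is Artin-Schelter regular of global
dimension four, and has exactly two isomorphism classes of point modules. -/
theorem result (k : Type u) [Field k] [IsAlgClosed k] (h2 : (2 : k) ≠ 0) (h5 : (5 : k) ≠ 0) :
    ∃ M : Fin 4 → Matrix (Fin 4) (Fin 4) k,
      IsGSCA k (fun _ _ => 1) M ∧ IsQuadratic (ggr k (fun _ _ => 1) M) ∧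
      IsASRegular (ggr k (fun _ _ => 1) M) 4 ∧
      Nat.card (PointClasses (ggr k (fun _ _ => 1) M)) = 2 := by
  obtain ⟨i, hi⟩ := IsAlgClosed.exists_pow_nat_eq (-1 : k) (n := 2) (by norm_num)
  exact ⟨Pool.Agent.Y586.G2.MM i, Pool.Agent.Y586.G2.main k i hi h2 h5⟩

end Pool.Agent.Results.MP_a6a2ff_al.TwoPoints
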